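import Pool.Agent.helper4.QX.SpecP

/-!
# Project QX (MP_07c750), row qp:MPI: Maurey-Pisier for smooth functions
-/

set_option autoImplicit false

open scoped MatrixGroups ContDiff Topology UpperHalfPlane
open UpperHalfPlane MeasureTheory ProbabilityTheory Filter Set Polynomial
open Pool.Agent.QU Pool.Agent.RP

namespace Pool.Agent.QX

theorem MPI_prob (ι : Type) [Fintype ι] : IsProbabilityMeasure (gau ι) := by
  unfold gau
  infer_instance

/-- The exponential moment of a linear function. -/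
theorem MPI_lin (ι : Type) [Fintype ι] (c : ι → ℝ) :
    ∫⁻ y, ENNReal.ofReal (Real.exp (∑ i, c i * y i)) ∂(gau ι) =
      ENNReal.ofReal (Real.exp ((∑ i, c i ^ 2) / 2)) := by
  have h1 : ∀ y : ι → ℝ, Real.exp (∑ i, c i * y i) = ∏ i, Real.exp (c i * y i) :=
    fun y => Real.exp_sum _ _
  have hint : Integrable (fun y : ι → ℝ => ∏ i, Real.exp (c i * y i)) (gau ι) := by
    unfold gau
    exact Integrable.fintype_prod (f := fun i (u : ℝ) => Real.exp (c i * u))
      (fun i => integrable_exp_mul_gaussianReal _)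
  simp_rw [h1]
  rw [← ofReal_integral_eq_lintegral_ofReal hint
    (ae_of_all _ fun y => Finset.prod_nonneg fun i _ => (Real.exp_pos _).le)]
  congr 1
  unfold gau
  rw [integral_fintype_prod_eq_prod (fun i (u : ℝ) => Real.exp (c i * u))]
  have h2 : ∀ i, ∫ u, Real.exp (c i * u) ∂(gaussianReal 0 1) = Real.exp (c i ^ 2 / 2) := by
    intro i
    have h3 := congrFun (mgf_id_gaussianReal (μ := 0) (v := 1)) (c i)
    simpa [mgf] using h3
  simp_rw [h2]
  rw [← Real.exp_sum, Finset.sum_div]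

/-- The uniform probability on `(0, π / 2]`. -/
noncomputable def MPI_nu : Measure ℝ :=
  ENNReal.ofReal (2 / Real.pi) • volume.restrict (Ioc 0 (Real.pi / 2))

theorem MPI_nu_prob : IsProbabilityMeasure MPI_nu := by
  constructor
  unfold MPI_nu
  rw [Measure.smul_apply, Measure.restrict_apply_univ, Real.volume_Ioc, smul_eq_mul,
    ← ENNReal.ofReal_mul (by positivity)]
  have h : 2 / Real.pi * (Real.pi / 2 - 0) = 1 := by
    have := Real.pi_ne_zero
    field_simp
    ring
  rw [h, ENNReal.ofReal_one]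

theorem MPI_nu_int (f : ℝ → ℝ) (hf : Continuous f) : Integrable f MPI_nu := by
  unfold MPI_nu
  refine Integrable.smul_measure ?_ ENNReal.ofReal_ne_top
  exact (hf.integrableOn_Icc (a := 0) (b := Real.pi / 2)).mono_set Ioc_subset_Icc_self

/-- The inequality along a path. -/
theorem MPI_path {ι : Type} [Fintype ι] (F : (ι → ℝ) → ℝ) (hF : ContDiff ℝ 1 F) (t : ℝ)
    (x y : ι → ℝ) :
    ENNReal.ofReal (Real.exp (t * (F y - F x))) ≤
      ∫⁻ θ, ENNReal.ofReal (Real.exp (Real.pi / 2 * t *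
        fderiv ℝ F (fun i => Real.cos θ * x i + Real.sin θ * y i)
          (fun i => -Real.sin θ * x i + Real.cos θ * y i))) ∂MPI_nu := by
  have := MPI_nu_prob
  have hpi := Real.pi_pos
  obtain ⟨a, ha⟩ : ∃ a : ℝ → (ι → ℝ), a = fun θ => Real.cos θ • x + Real.sin θ • y := ⟨_, rfl⟩
  obtain ⟨b, hb⟩ : ∃ b : ℝ → (ι → ℝ), b = fun θ => (-Real.sin θ) • x + Real.cos θ • y := ⟨_, rfl⟩
  have hab : ∀ θ, HasDerivAt a (b θ) θ := by
    intro θ
    rw [ha, hb]
    exact ((Real.hasDerivAt_cos θ).smul_const x).add ((Real.hasDerivAt_sin θ).smul_const y)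
  have hac : Continuous a := by
    rw [ha]
    exact (Real.continuous_cos.smul continuous_const).add
      (Real.continuous_sin.smul continuous_const)
  have hbc : Continuous b := by
    rw [hb]
    exact (Real.continuous_sin.neg.smul continuous_const).add
      (Real.continuous_cos.smul continuous_const)
  have hgc : Continuous fun θ => fderiv ℝ F (a θ) (b θ) :=
    (hF.continuous_fderiv_apply one_ne_zero).comp (hac.prodMk hbc)
  have hder : ∀ θ, HasDerivAt (fun θ => F (a θ)) (fderiv ℝ F (a θ) (b θ)) θ := fun θ =>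
    ((hF.differentiable one_ne_zero) (a θ)).hasFDerivAt.comp_hasDerivAt θ (hab θ)
  have hint : ∫ θ in (0 : ℝ)..(Real.pi / 2), fderiv ℝ F (a θ) (b θ) = F y - F x := by
    rw [intervalIntegral.integral_eq_sub_of_hasDerivAt (fun θ _ => hder θ)
      (hgc.intervalIntegrable _ _)]
    have e1 : a (Real.pi / 2) = y := by
      rw [ha]
      simp
    have e2 : a 0 = x := by
      rw [ha]
      simp
    rw [e1, e2]
  obtain ⟨f, hf⟩ : ∃ f : ℝ → ℝ, f = fun θ => Real.pi / 2 * t * fderiv ℝ F (a θ) (b θ) := ⟨_, rfl⟩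
  have hfc : Continuous f := by
    rw [hf]
    exact continuous_const.mul hgc
  have hfint : ∫ θ, f θ ∂MPI_nu = t * (F y - F x) := by
    unfold MPI_nu
    rw [integral_smul_measure, ← intervalIntegral.integral_of_le (by positivity), hf,
      intervalIntegral.integral_const_mul, hint, ENNReal.toReal_ofReal (by positivity),
      smul_eq_mul]
    field_simp
  have hJ : Real.exp (∫ θ, f θ ∂MPI_nu) ≤ ∫ θ, Real.exp (f θ) ∂MPI_nu :=
    convexOn_exp.map_integral_le Real.continuous_exp.continuousOn isClosed_univ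
      (ae_of_all _ fun _ => mem_univ _) (MPI_nu_int f hfc)
      (MPI_nu_int _ (Real.continuous_exp.comp hfc))
  rw [hfint] at hJ
  have hL : ∫⁻ θ, ENNReal.ofReal (Real.exp (f θ)) ∂MPI_nu =
      ENNReal.ofReal (∫ θ, Real.exp (f θ) ∂MPI_nu) :=
    (ofReal_integral_eq_lintegral_ofReal (MPI_nu_int _ (Real.continuous_exp.comp hfc))
      (ae_of_all _ fun _ => (Real.exp_pos _).le)).symm
  calc ENNReal.ofReal (Real.exp (t * (F y - F x))) ≤
      ENNReal.ofReal (∫ θ, Real.exp (f θ) ∂MPI_nu) := ENNReal.ofReal_le_ofReal hJ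
    _ = ∫⁻ θ, ENNReal.ofReal (Real.exp (f θ)) ∂MPI_nu := hL.symm
    _ = _ := by
        rw [hf, ha, hb]
        rfl

theorem MPI (h1 : ROT_stmt) : MPI_stmt := by
  intro ι _ _ F L t hL hF hgrad
  have hP := MPI_prob ι
  have hN := MPI_nu_prob
  obtain ⟨G, hG⟩ : ∃ G : (ι → ℝ) × (ι → ℝ) → ENNReal, G = fun p =>
    ENNReal.ofReal (Real.exp (Real.pi / 2 * t * fderiv ℝ F p.1 p.2)) := ⟨_, rfl⟩
  have hGm : Measurable G := by
    rw [hG]
    exact (ENNReal.continuous_ofReal.comp (Real.continuous_exp.comp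
      (continuous_const.mul (hF.continuous_fderiv_apply one_ne_zero)))).measurable
  obtain ⟨R, hR⟩ : ∃ R : ℝ → (ι → ℝ) × (ι → ℝ) → (ι → ℝ) × (ι → ℝ), R = fun θ p =>
    ((fun i => Real.cos θ * p.1 i + Real.sin θ * p.2 i),
      fun i => -Real.sin θ * p.1 i + Real.cos θ * p.2 i) := ⟨_, rfl⟩
  have hRc : Continuous fun q : ((ι → ℝ) × (ι → ℝ)) × ℝ => R q.2 q.1 := by
    rw [hR]
    fun_prop
  have hRm : ∀ θ, Measurable (R θ) := fun θ =>
    (hRc.comp (continuous_id.prodMk continuous_const)).measurable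
  have hrot : ∀ θ, ((gau ι).prod (gau ι)).map (R θ) = (gau ι).prod (gau ι) := by
    intro θ
    rw [hR]
    exact h1 ι θ
  have hbd : ∫⁻ p, G p ∂((gau ι).prod (gau ι)) ≤
      ENNReal.ofReal (Real.exp (Real.pi ^ 2 * t ^ 2 * L ^ 2 / 8)) := by
    rw [lintegral_prod _ hGm.aemeasurable]
    have h2 : ∀ x : ι → ℝ, ∫⁻ y, G (x, y) ∂(gau ι) ≤
        ENNReal.ofReal (Real.exp (Real.pi ^ 2 * t ^ 2 * L ^ 2 / 8)) := by
      intro x
      have h3 : ∀ y : ι → ℝ, G (x, y) = ENNReal.ofReal (Real.exp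
          (∑ i, (Real.pi / 2 * t * fderiv ℝ F x (Pi.single i 1)) * y i)) := by
        intro y
        rw [hG]
        show ENNReal.ofReal (Real.exp (Real.pi / 2 * t * fderiv ℝ F x y)) = _
        congr 2
        have h4 : y = ∑ i, y i • (Pi.single i (1 : ℝ) : ι → ℝ) := by
          funext j
          simp [Finset.sum_apply, Pi.single_apply]
        conv_lhs => rw [h4]
        rw [map_sum, Finset.mul_sum]
        refine Finset.sum_congr rfl fun i _ => ?_
        rw [map_smul, smul_eq_mul]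
        ring
      rw [lintegral_congr h3, MPI_lin]
      refine ENNReal.ofReal_le_ofReal (Real.exp_le_exp.2 ?_)
      have h5 : ∑ i, (Real.pi / 2 * t * fderiv ℝ F x (Pi.single i 1)) ^ 2 =
          (Real.pi / 2 * t) ^ 2 * ∑ i, (fderiv ℝ F x (Pi.single i 1)) ^ 2 := by
        rw [Finset.mul_sum]
        exact Finset.sum_congr rfl fun i _ => by ring
      rw [h5]
      have h6 := mul_le_mul_of_nonneg_left (hgrad x) (sq_nonneg (Real.pi / 2 * t))
      linarith
    calc ∫⁻ x, ∫⁻ y, G (x, y) ∂(gau ι) ∂(gau ι) ≤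
        ∫⁻ _, ENNReal.ofReal (Real.exp (Real.pi ^ 2 * t ^ 2 * L ^ 2 / 8)) ∂(gau ι) :=
          lintegral_mono h2
      _ = _ := by rw [lintegral_const, measure_univ, mul_one]
  calc ∫⁻ p : (ι → ℝ) × (ι → ℝ), ENNReal.ofReal (Real.exp (t * (F p.2 - F p.1)))
        ∂((gau ι).prod (gau ι)) ≤
      ∫⁻ p, ∫⁻ θ, G (R θ p) ∂MPI_nu ∂((gau ι).prod (gau ι)) := by
        refine lintegral_mono fun p => ?_
        have h2 := MPI_path F hF t p.1 p.2
        rw [hG, hR]
        exact h2
    _ = ∫⁻ θ, ∫⁻ p, G (R θ p) ∂((gau ι).prod (gau ι)) ∂MPI_nu :=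
        lintegral_lintegral_swap (hGm.comp hRc.measurable).aemeasurable
    _ = ∫⁻ _, ∫⁻ p, G p ∂((gau ι).prod (gau ι)) ∂MPI_nu := by
        refine lintegral_congr fun θ => ?_
        conv_rhs => rw [← hrot θ]
        rw [lintegral_map hGm (hRm θ)]
    _ = ∫⁻ p, G p ∂((gau ι).prod (gau ι)) := by
        rw [lintegral_const, measure_univ, mul_one]
    _ ≤ _ := hbd

end Pool.Agent.QX
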